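import Mathlib
import Pool.Agent.X318.DigHank

/-!
# MP_47b218_nt, Q1: the Hankel determinants of the binary digit sum are 2-automatic modulo `2^k`
(and modulo every `M ≥ 1`).
-/

set_option autoImplicit false

namespace Pool.Agent.Results.MP_47b218_nt.HankelAutomatic

open X318.PencilDet X318.DigHank

/-- number of ones in the binary expansion of `m` -/
def s (m : ℕ) : ℤ := ((Nat.digits 2 m).sum : ℤ)

/-- `ℋ(n) = det [s(i+j)]_{0 ≤ i,j < n}` -/
def Hk (n : ℕ) : ℤ := (Matrix.of fun i j : Fin n => s ((i : ℕ) + (j : ℕ))).det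

/-- The 2-kernel of a sequence. -/
def kernel {α : Type} (a : ℕ → α) : Set (ℕ → α) :=
  {b | ∃ e r : ℕ, r < 2 ^ e ∧ b = fun n => a (2 ^ e * n + r)}

/-- A deterministic finite automaton with output, reading the base-2 representation of `n`
(most significant digit first), ends in a state whose output is `a n`. -/
def HasDFAO {α : Type} (a : ℕ → α) : Prop :=
  ∃ (Q : Type) (_ : Finite Q) (δ : Q → ℕ → Q) (q₀ : Q) (out : Q → α),
    ∀ n, out ((Nat.digits 2 n).reverse.foldl δ q₀) = a n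

/-- 2-automatic (both equivalent definitions). -/
def TwoAutomatic {α : Type} (a : ℕ → α) : Prop := HasDFAO a ∧ (kernel a).Finite

lemma s_even (m : ℕ) : s (2 * m) = 1 * s m := by
  unfold s
  rcases Nat.eq_zero_or_pos m with h | h
  · subst h; simp
  · rw [Nat.digits_def' (by norm_num) (by omega)]
    simp [Nat.mul_mod_right]

lemma s_odd (m : ℕ) : s (2 * m + 1) = 1 + 1 * s m := by
  unfold s
  rw [Nat.digits_def' (by norm_num) (by omega)]
  have h1 : (2 * m + 1) % 2 = 1 := by omega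
  have h2 : (2 * m + 1) / 2 = m := by omega
  rw [h1, h2]
  simp

lemma digSeq : DigSeq (1 : ℤ) s := ⟨s_even, s_odd⟩

/-- general principle: a finite state vector that doubles -/
lemma auto_of_state {α W : Type} [Finite W] (w : ℕ → W) (F : Fin 2 → W → W) (out : W → α)
    (h0 : ∀ n, w (2 * n) = F 0 (w n)) (h1 : ∀ n, w (2 * n + 1) = F 1 (w n)) :
    TwoAutomatic (fun n => out (w n)) := by
  constructor
  · refine ⟨W, inferInstance, fun q d => if d = 0 then F 0 q else F 1 q, w 0, out, ?_⟩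
    intro n
    congr 1
    induction n using Nat.strong_induction_on with
    | _ n ih =>
      rcases Nat.eq_zero_or_pos n with hn | hn
      · subst hn; simp
      · rw [Nat.digits_def' (by norm_num) hn, List.reverse_cons, List.foldl_append,
          ih (n / 2) (by omega)]
        rcases Nat.even_or_odd' n with ⟨m, rfl | rfl⟩
        · rw [show 2 * m / 2 = m by omega, show 2 * m % 2 = 0 by omega, h0]
          simp
        · rw [show (2 * m + 1) / 2 = m by omega, show (2 * m + 1) % 2 = 1 by omega, h1]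
          simp
  · have hφ : ∀ e r : ℕ, r < 2 ^ e → ∃ φ : W → W, ∀ n, w (2 ^ e * n + r) = φ (w n) := by
      intro e
      induction e with
      | zero =>
        intro r hr
        have : r = 0 := by simpa using hr
        subst this
        exact ⟨id, fun n => by simp⟩
      | succ e ih =>
        intro r hr
        obtain ⟨φ, hφ⟩ := ih (r / 2) (by rw [pow_succ] at hr; omega)
        rcases Nat.even_or_odd' r with ⟨m, rfl | rfl⟩
        · refine ⟨fun x => F 0 (φ x), fun n => ?_⟩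
          rw [show 2 ^ (e + 1) * n + 2 * m = 2 * (2 ^ e * n + 2 * m / 2) by
            rw [show 2 * m / 2 = m by omega]; ring, h0, hφ]
        · refine ⟨fun x => F 1 (φ x), fun n => ?_⟩
          rw [show 2 ^ (e + 1) * n + (2 * m + 1) = 2 * (2 ^ e * n + (2 * m + 1) / 2) + 1 by
            rw [show (2 * m + 1) / 2 = m by omega]; ring, h1, hφ]
    apply Set.Finite.subset (Set.finite_range (fun φ : W → W => fun n => out (φ (w n))))
    rintro b ⟨e, r, hr, rfl⟩
    obtain ⟨φ, hφ⟩ := hφ e r hr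
    exact ⟨φ, by funext n; simp only; rw [hφ]⟩

/-- the state vector `(ℋ, ℋ', β, β', γ)(n)` modulo `M` -/
def v (M n : ℕ) : ZMod M × ZMod M × ZMod M × ZMod M × ZMod M :=
  (((H s n : ℤ) : ZMod M), ((H' s n : ℤ) : ZMod M), ((B s n : ℤ) : ZMod M), ((B' s n : ℤ) : ZMod M),
    ((G s n : ℤ) : ZMod M))

abbrev V (M : ℕ) := ZMod M × ZMod M × ZMod M × ZMod M × ZMod M

/-- `v(2n)` from `v(n)` and the sign `(-1)^n` -/
def Ev {M : ℕ} (x : V M) (σ : ZMod M) : V M :=
  (x.1 * (x.2.2.1 - 2 * x.2.2.2.1) - x.2.1 * x.2.2.2.1,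
   x.2.1 * (x.2.2.1 - 2 * x.2.2.2.1),
   x.2.2.1 * (σ * (x.2.2.1 - 2 * x.2.2.2.1)),
   2 * x.2.2.2.1 * (σ * (x.2.2.1 - 2 * x.2.2.2.1)),
   (x.2.2.1 - 2 * x.2.2.2.1) * x.2.2.2.2)

/-- `v(2n+1)` from `v(n)`, `v(n+1)` and the sign `(-1)^n` -/
def Od {M : ℕ} (x y : V M) (σ : ZMod M) : V M :=
  (y.1 * (x.2.2.1 - 2 * x.2.2.2.1) - y.2.1 * x.2.2.2.1,
   y.2.1 * (x.2.2.1 - 2 * x.2.2.2.1),
   σ * x.2.2.2.2 ^ 2,
   σ * x.2.2.2.2 ^ 2,
   (y.2.2.1 - 2 * y.2.2.2.1) * x.2.2.2.2)

lemma v_even (M n : ℕ) : v M (2 * n) = Ev (v M n) ((-1) ^ n) := by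
  have e1 := H_rec digSeq n n le_rfl (by omega)
  have e2 := H'_rec digSeq n n le_rfl (by omega)
  have e3 := B_even digSeq n
  have e4 := B'_even digSeq n
  have e5 := G_rec digSeq n n le_rfl (by omega)
  rw [← two_mul] at e1 e2 e5
  simp only [one_pow, one_mul] at e1 e2 e3 e4 e5
  unfold v Ev
  rw [e1, e2, e3, e4, e5]
  push_cast
  rfl

lemma v_odd (M n : ℕ) : v M (2 * n + 1) = Od (v M n) (v M (n + 1)) ((-1) ^ n) := by
  have e1 := H_rec digSeq (n + 1) n (by omega) le_rfl
  have e2 := H'_rec digSeq (n + 1) n (by omega) le_rfl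
  have e3 := B_odd digSeq n
  have e4 := B'_odd digSeq n
  have e5 := G_rec digSeq (n + 1) n (by omega) le_rfl
  rw [show n + 1 + n = 2 * n + 1 by ring] at e1 e2 e5
  simp only [one_pow, one_mul] at e1 e2 e3 e4 e5
  unfold v Od
  rw [e1, e2, e4, e3, e5]
  push_cast
  rfl

lemma auto_mod (M : ℕ) (hM : 1 ≤ M) : TwoAutomatic (fun n => Hk (n + 1) % (M : ℤ)) := by
  have : NeZero M := ⟨by omega⟩
  have : Finite (ZMod M) := inferInstance
  have key := auto_of_state (W := V M × V M × ZMod M)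
    (fun n => (v M n, v M (n + 1), (-1) ^ n))
    (fun ε q => if ε = 0 then (Ev q.1 q.2.2, Od q.1 q.2.1 q.2.2, 1)
      else (Od q.1 q.2.1 q.2.2, Ev q.2.1 (-q.2.2), -1))
    (fun q => ((q.2.1.1).val : ℤ))
    (fun n => by
      simp only [if_true]
      rw [v_even, v_odd, pow_mul]
      norm_num)
    (fun n => by
      have h : ¬ ((1 : Fin 2) = 0) := by decide
      simp only [if_neg h]
      rw [show 2 * n + 1 + 1 = 2 * (n + 1) by ring, v_even, v_odd]
      congr 2
      · congr 1; rw [pow_succ]; ring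
      · rw [pow_succ, pow_mul]; norm_num)
  have e : (fun n => Hk (n + 1) % (M : ℤ)) =
      fun n => (((v M (n + 1)).1).val : ℤ) := by
    funext n
    unfold v
    rw [ZMod.val_intCast]
    rfl
  rw [e]
  exact key

/-- Q1: for every `k ≥ 1` the sequence `(ℋ(n+1) mod 2^k)_{n ≥ 0}` is 2-automatic. More generally
`(ℋ(n+1) mod M)_{n ≥ 0}` is 2-automatic for every `M ≥ 1`. -/
theorem result :
    (∀ k : ℕ, 1 ≤ k → TwoAutomatic (fun n => Hk (n + 1) % (2 : ℤ) ^ k)) ∧
    (∀ M : ℕ, 1 ≤ M → TwoAutomatic (fun n => Hk (n + 1) % (M : ℤ))) := by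
  refine ⟨fun k _ => ?_, auto_mod⟩
  have := auto_mod (2 ^ k) (Nat.one_le_two_pow)
  simpa using this

end Pool.Agent.Results.MP_47b218_nt.HankelAutomatic
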